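import Mathlib

/-!
# An `{agsm⁻¹}`-principal and `C`-principal family that is not closed under `T`

The family is that of the regular languages.
-/

set_option autoImplicit false

namespace Pool.Agent.Results.MP_c9c291_lc.RegularFamily

/-- A language over some finite alphabet. -/
structure Lang where
  X : Type
  fin : Finite X
  L : Language X

/-- An agsm with input alphabet `X` and output alphabet `Y`. -/
structure Agsm (X Y : Type) where
  Q : Type
  finQ : Finite Q
  q0 : Q
  final : Set Q
  t : Q → X → Q
  h : Q → X → List Y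

namespace Agsm

variable {X Y : Type} (g : Agsm X Y)

/-- the transition map on words -/
def tw (q : g.Q) (w : List X) : g.Q := w.foldl g.t q

/-- the output map on words -/
def hw : g.Q → List X → List Y
  | _, [] => []
  | q, a :: w => g.h q a ++ hw (g.t q a) w

/-- `g⁻¹(M)` -/
def inv (M : Language Y) : Language X := {w | g.tw g.q0 w ∈ g.final ∧ g.hw g.q0 w ∈ M}

end Agsm

/-- `M` arises from `L` by the operation `agsm⁻¹`. -/
def OpAgsm (L M : Lang) : Prop := ∃ g : Agsm M.X L.X, M.L = g.inv L.L

/-- The operations `C`: inverse homomorphism and intersection with a regular set. -/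
inductive OpC : Lang → Lang → Prop
  | invHom (L M : Lang) (h : FreeMonoid M.X →* FreeMonoid L.X)
      (hM : M.L = {w | h (FreeMonoid.ofList w) ∈ {x : FreeMonoid L.X | x.toList ∈ L.L}}) : OpC L M
  | inter (X : Type) (fX : Finite X) (L R : Language X) (hR : R.IsRegular) :
      OpC ⟨X, fX, L⟩ ⟨X, fX, L ⊓ R⟩

/-- The family `F` is closed under the operations `E`. -/
def ClosedUnder (E : Lang → Lang → Prop) (F : Set Lang) : Prop := ∀ L M, L ∈ F → E L M → M ∈ F

/-- The family `F` is `E`-principal: it is closed under `E`, and there is `L₀` in `F` from which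
every language of `F` is obtained by finitely many operations of `E`. -/
def Principal (E : Lang → Lang → Prop) (F : Set Lang) : Prop :=
  ClosedUnder E F ∧ ∃ L₀ ∈ F, ∀ L ∈ F, Relation.ReflTransGen E L₀ L

/-- The alphabet `X` with the new letters `y`, `ȳ`, `z`. -/
inductive Letter (X : Type) where
  | of (a : X)
  | y
  | ybar
  | z

/-- the nonterminals -/
inductive NT where
  | v0 | v1 | v2 | v3

open Letter NT in
/-- `Gen v w`: the word `w` is generated by the grammar from the nonterminal `v`; the rules are
`v₀ → v₁ ∣ ε`, `v₁ → y v₂ ȳ ∣ v₃ z ∣ z`, `v₂ → v₂ x ∣ v₁` for `x ∈ X ∪ {y}`, and `v₃ → v₃ x ∣ ȳ` for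
`x ∈ X ∪ {y, ȳ}`. -/
inductive Gen (X : Type) : NT → List (Letter X) → Prop
  | r01 {w : List (Letter X)} : Gen X v1 w → Gen X v0 w
  | r0e : Gen X v0 []
  | r1y {w : List (Letter X)} : Gen X v2 w → Gen X v1 ([y] ++ w ++ [ybar])
  | r13 {w : List (Letter X)} : Gen X v3 w → Gen X v1 (w ++ [z])
  | r1z : Gen X v1 [z]
  | r2x {w : List (Letter X)} (x : Letter X) (hx : x = y ∨ ∃ a, x = of a) :
      Gen X v2 w → Gen X v2 (w ++ [x])
  | r21 {w : List (Letter X)} : Gen X v1 w → Gen X v2 w
  | r3x {w : List (Letter X)} (x : Letter X) (hx : x = y ∨ x = ybar ∨ ∃ a, x = of a) :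
      Gen X v3 w → Gen X v3 (w ++ [x])
  | r3b : Gen X v3 [ybar]

/-- the context-free language `A` -/
def langA (X : Type) : Language (Letter X) := {w | Gen X NT.v0 w}

/-- the language `X*`, over the larger alphabet -/
def langX (X : Type) : Language (Letter X) := {w | ∃ u : List X, w = u.map Letter.of}

/-- the language `y⁺` -/
def langY (X : Type) : Language (Letter X) := {w | ∃ n : ℕ, 1 ≤ n ∧ w = List.replicate n Letter.y}

/-- `B = y + (ȳ X* y⁺)*` -/
def langB (X : Type) : Language (Letter X) :=
  ({[Letter.y]} : Language (Letter X)) +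
    KStar.kstar (({[Letter.ybar]} : Language (Letter X)) * langX X * langY X)

/-- `f₁ A f₂ A ⋯ A fₙ` -/
def body (X : Type) : List X → Language (Letter X)
  | [] => {[]}
  | [f] => {[Letter.of f]}
  | f :: f' :: l => {[Letter.of f]} * langA X * body X (f' :: l)

/-- `T(L) = {z ȳ f₁ A f₂ A ⋯ A fₙ B : f₁ ⋯ fₙ ∈ L}` -/
def langT {X : Type} (L : Language X) : Language (Letter X) :=
  {w | ∃ f ∈ L, w ∈ ({[Letter.z, Letter.ybar]} : Language (Letter X)) * body X f * langB X}

instance {X : Type} [Finite X] : Finite (Letter X) := by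
  refine Finite.of_injective
    (fun l : Letter X => match l with
      | .of a => Sum.inl a
      | .y => (Sum.inr 0 : X ⊕ Fin 3)
      | .ybar => Sum.inr 1
      | .z => Sum.inr 2) ?_
  intro a b h
  cases a <;> cases b <;> simp_all

/-- The transformation `T` of languages. -/
def T (L : Lang) : Lang := ⟨Letter L.X, have := L.fin; inferInstance, langT L.L⟩

/-- The family `F` is closed under `T`. -/
def ClosedT (F : Set Lang) : Prop := ∀ L ∈ F, T L ∈ F

/-- The family of the regular languages. -/
def Reg : Set Lang := {L | L.L.IsRegular}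

/-! ### `Reg` is principal -/

theorem closed_agsm : ClosedUnder OpAgsm Reg := by
  rintro L M hL ⟨g, hg⟩
  have := g.finQ
  obtain ⟨σ, _, D, hD⟩ := hL
  have : Fintype g.Q := Fintype.ofFinite _
  let D' : DFA M.X (g.Q × σ) :=
    { step := fun s a => (g.t s.1 a, D.evalFrom s.2 (g.h s.1 a))
      start := (g.q0, D.start)
      accept := {s | s.1 ∈ g.final ∧ s.2 ∈ D.accept} }
  have key : ∀ (w : List M.X) (q : g.Q) (s : σ),
      D'.evalFrom (q, s) w = (g.tw q w, D.evalFrom s (g.hw q w)) := by
    intro w
    induction w with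
    | nil => intro q s; rfl
    | cons a w ih =>
      intro q s
      change D'.evalFrom (g.t q a, D.evalFrom s (g.h q a)) w = _
      rw [ih, Agsm.hw, DFA.evalFrom_of_append]
      rfl
  refine ⟨g.Q × σ, inferInstance, D', ?_⟩
  rw [hg]
  ext w
  change D'.evalFrom D'.start w ∈ D'.accept ↔ _
  rw [key w g.q0 D.start]
  change (_ ∧ D.evalFrom D.start _ ∈ D.accept) ↔ (_ ∧ _ ∈ L.L)
  rw [← hD]
  rfl

/-- the language consisting of the empty word -/
def E0 : Lang := ⟨Unit, inferInstance, {[]}⟩

theorem E0_reg : E0 ∈ Reg := by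
  refine ⟨Bool, inferInstance, ⟨fun _ _ => false, true, {true}⟩, ?_⟩
  ext w
  change (DFA.evalFrom ⟨fun _ _ => false, true, {true}⟩ true w) ∈ ({true} : Set Bool) ↔ w = []
  rcases w with _ | ⟨a, w⟩
  · simp
  · have : ∀ w : List Unit, DFA.evalFrom (⟨fun _ _ => false, true, {true}⟩ : DFA Unit Bool)
        false w = false := by
      intro w
      induction w with
      | nil => rfl
      | cons a w ih => exact ih
    have h1 := this w
    simp only [reduceCtorEq, iff_false, Set.mem_singleton_iff]
    intro h2
    have h3 : DFA.evalFrom (⟨fun _ _ => false, true, {true}⟩ : DFA Unit Bool)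
        false w = true := h2
    rw [h1] at h3
    exact absurd h3 (by decide)

theorem principal_agsm : Principal OpAgsm Reg := by
  refine ⟨closed_agsm, E0, E0_reg, ?_⟩
  rintro ⟨X, fX, L⟩ ⟨σ, fσ, D, hD⟩
  refine Relation.ReflTransGen.single ?_
  refine ⟨⟨σ, inferInstance, D.start, D.accept, D.step, fun _ _ => []⟩, ?_⟩
  simp only at hD
  have h1 : ∀ (w : List X) (q : σ), Agsm.hw
      (⟨σ, inferInstance, D.start, D.accept, D.step, fun _ _ => []⟩ : Agsm X Unit) q w = [] := by
    intro w
    induction w with
    | nil => intro q; rfl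
    | cons a w ih => intro q; rw [Agsm.hw, ih]; rfl
  change L = _
  rw [← hD]
  ext w
  exact ⟨fun h => ⟨h, h1 w _⟩, fun h => h.1⟩

theorem principal_C : Principal OpC Reg := by
  constructor
  · intro L M hL h
    cases h with
    | invHom _ _ h hM =>
      refine closed_agsm L M hL ⟨⟨Unit, inferInstance, (), Set.univ, fun _ _ => (),
        fun _ a => (h (FreeMonoid.of a)).toList⟩, ?_⟩
      have key : ∀ w : List M.X, Agsm.hw (⟨Unit, inferInstance, (), Set.univ, fun _ _ => (),
          fun _ a => (h (FreeMonoid.of a)).toList⟩ : Agsm M.X L.X) () w =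
          (h (FreeMonoid.ofList w)).toList := by
        intro w
        induction w with
        | nil =>
          change [] = (h 1).toList
          rw [map_one]
          rfl
        | cons a w ih =>
          rw [Agsm.hw]
          have h1 : FreeMonoid.ofList (a :: w) = FreeMonoid.of a * FreeMonoid.ofList w := rfl
          rw [h1, map_mul, FreeMonoid.toList_mul, ih]
      rw [hM]
      ext w
      change (h (FreeMonoid.ofList w)).toList ∈ L.L ↔ (() ∈ Set.univ ∧ _ ∈ L.L)
      rw [key]
      simp
    | inter X fX L R hR => exact Language.IsRegular.inf hL hR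
  · refine ⟨E0, E0_reg, ?_⟩
    rintro ⟨X, fX, L⟩ hL
    have h1 : OpC E0 ⟨X, fX, ⊤⟩ := by
      refine .invHom E0 ⟨X, fX, ⊤⟩ 1 ?_
      ext w
      change True ↔ _
      simp [E0]
      rfl
    have h2 : OpC ⟨X, fX, ⊤⟩ ⟨X, fX, ⊤ ⊓ L⟩ := .inter X fX ⊤ L hL
    rw [top_inf_eq] at h2
    exact (Relation.ReflTransGen.single h1).tail h2

/-! ### `Reg` is not closed under `T` -/

theorem gen_eq {X : Type} {v : NT} {w : List (Letter X)} (h : Gen X v w) : v ≠ NT.v0 →
    v ≠ NT.v3 → ∀ n m, w = List.replicate n Letter.y ++ (Letter.z :: List.replicate m Letter.ybar) →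
    n = m := by
  have h3 : ∀ {v : NT} {w : List (Letter X)}, Gen X v w → v = NT.v3 →
      ∃ u, w = Letter.ybar :: u := by
    intro v w h
    induction h with
    | r3x x hx h ih =>
      intro _
      obtain ⟨u, hu⟩ := ih rfl
      exact ⟨u ++ [x], by rw [hu]; rfl⟩
    | r3b => intro _; exact ⟨[], rfl⟩
    | _ => intro h; cases h
  induction h with
  | r01 h ih => intro h; exact absurd rfl h
  | r0e => intro h; exact absurd rfl h
  | r1y h ih =>
    intro _ _ n m hw
    rcases n with _ | n
    · simp at hw
    · rcases m with _ | m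
      · exfalso
        have h1 := congrArg List.reverse hw
        simp at h1
      · rw [List.replicate_succ, List.replicate_succ'] at hw
        have h1 : Letter.z :: (List.replicate m Letter.ybar ++ [Letter.ybar]) =
          (Letter.z :: List.replicate m Letter.ybar) ++ [(Letter.ybar : Letter X)] := rfl
        rw [h1, ← List.append_assoc] at hw
        have h2 := List.append_cancel_right hw
        rw [List.singleton_append, List.cons_append, List.cons.injEq] at h2
        rw [ih (by simp) (by simp) n m h2.2]
  | r13 h ih =>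
    intro _ _ n m hw
    exfalso
    obtain ⟨u, rfl⟩ := h3 h rfl
    rcases n with _ | n
    · simp at hw
    · simp [List.replicate_succ] at hw
  | r1z =>
    intro _ _ n m hw
    rcases n with _ | n
    · rcases m with _ | m
      · rfl
      · simp [List.replicate_succ] at hw
    · simp [List.replicate_succ] at hw
  | r2x x hx h ih =>
    intro _ _ n m hw
    exfalso
    have h1 := congrArg List.reverse hw
    rcases m with _ | m
    · rcases hx with rfl | ⟨a, rfl⟩ <;> simp at h1
    · rw [List.replicate_succ'] at hw
      have h2 : List.replicate n Letter.y ++ Letter.z :: (List.replicate m Letter.ybar ++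
          [Letter.ybar]) = (List.replicate n Letter.y ++ Letter.z ::
            List.replicate m Letter.ybar) ++ [(Letter.ybar : Letter X)] := by simp
      rw [h2] at hw
      have h3 := (List.append_inj' hw rfl).2
      rcases hx with rfl | ⟨a, rfl⟩ <;> simp at h3
  | r21 h ih => intro _ _; exact ih (by simp) (by simp)
  | r3x x hx h ih => intro _ h; exact absurd rfl h
  | r3b => intro _ h; exact absurd rfl h

theorem gen_mem {X : Type} (n : ℕ) :
    Gen X NT.v1 (List.replicate n Letter.y ++ (Letter.z :: List.replicate n Letter.ybar)) := by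
  induction n with
  | zero => exact .r1z
  | succ n ih =>
    have h1 : List.replicate (n + 1) Letter.y ++ (Letter.z :: List.replicate (n + 1) Letter.ybar) =
        [Letter.y] ++ (List.replicate n Letter.y ++ (Letter.z :: List.replicate n Letter.ybar)) ++
          [(Letter.ybar : Letter X)] := by
      rw [List.replicate_succ, List.replicate_succ']
      simp
    rw [h1]
    exact .r1y (.r21 ih)

/-- the language `{xx}` -/
def XX : Language Unit := {[(), ()]}

/-- the test words -/
def test (n m : ℕ) : List (Letter Unit) :=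
  [Letter.z, Letter.ybar, Letter.of ()] ++ List.replicate n Letter.y ++
    ([Letter.z] ++ List.replicate m Letter.ybar ++ [Letter.of ()])

theorem test_mem (n m : ℕ) : test n m ∈ langT XX ↔ n = m := by
  constructor
  · rintro ⟨f, hf, hw⟩
    have hf' : f = [(), ()] := hf
    subst hf'
    rw [Language.mem_mul] at hw
    obtain ⟨p, hp, b, _, hw⟩ := hw
    rw [Language.mem_mul] at hp
    obtain ⟨p1, hp1, p2, hp2, rfl⟩ := hp
    have hp1' : p1 = [Letter.z, Letter.ybar] := hp1
    subst hp1'
    rw [body, Language.mem_mul] at hp2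
    obtain ⟨p3, hp3, p4, hp4, rfl⟩ := hp2
    rw [Language.mem_mul] at hp3
    obtain ⟨p5, hp5, α, hα, rfl⟩ := hp3
    have hp5' : p5 = [Letter.of ()] := hp5
    have hp4' : p4 = [Letter.of ()] := hp4
    subst hp5' hp4'
    simp only [test, List.cons_append, List.nil_append, List.append_assoc, List.cons.injEq,
      true_and] at hw
    -- `hw : α ++ x :: b = y^n z ȳ^m x`
    have hno : ∀ k l : ℕ, (Letter.of () : Letter Unit) ∉
        List.replicate k Letter.y ++ (Letter.z :: List.replicate l Letter.ybar) := by
      intro k l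
      simp
    have hw' : α ++ Letter.of () :: b =
        (List.replicate n Letter.y ++ (Letter.z :: List.replicate m Letter.ybar)) ++
          Letter.of () :: [] := by
      rw [hw]
      simp
    have hα' : α = List.replicate n Letter.y ++ (Letter.z :: List.replicate m Letter.ybar) := by
      rw [List.append_eq_append_iff] at hw'
      rcases hw' with ⟨a', h1, h2⟩ | ⟨c', h1, h2⟩
      · rcases a' with _ | ⟨c, a'⟩
        · simpa using h1.symm
        · exfalso
          rw [List.cons_append, List.cons.injEq] at h2
          apply hno n m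
          rw [h1, ← h2.1]
          simp
      · rcases c' with _ | ⟨c, c'⟩
        · simpa using h1
        · exfalso
          have h3 := congrArg List.length h2
          simp at h3
    have hG : Gen Unit NT.v0 α := hα
    rw [hα'] at hG
    have h0 : ∀ {v : NT} {w : List (Letter Unit)}, Gen Unit v w → v = NT.v0 → w ≠ [] →
        Gen Unit NT.v1 w := by
      intro v w h hv hw
      cases h with
      | r01 h => exact h
      | r0e => exact absurd rfl hw
      | _ => cases hv
    exact gen_eq (h0 hG rfl (by simp)) (by simp) (by simp) n m rfl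
  · rintro rfl
    refine ⟨[(), ()], rfl, ?_⟩
    rw [Language.mem_mul]
    refine ⟨[Letter.z, Letter.ybar] ++ ([Letter.of ()] ++ (List.replicate n Letter.y ++
      (Letter.z :: List.replicate n Letter.ybar)) ++ [Letter.of ()]), ?_, [], ?_, ?_⟩
    · rw [Language.mem_mul]
      refine ⟨_, rfl, _, ?_, rfl⟩
      rw [body, Language.mem_mul]
      refine ⟨_, ?_, _, rfl, rfl⟩
      rw [Language.mem_mul]
      exact ⟨_, rfl, _, Gen.r01 (gen_mem n), rfl⟩
    · right
      exact Language.nil_mem_kstar _
    · simp [test]

theorem not_regular : ¬ (langT XX).IsRegular := by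
  rintro ⟨σ, _, D, hD'⟩
  obtain ⟨n, m, hnm, hst⟩ := Finite.exists_ne_map_eq_of_infinite (fun n : ℕ => D.evalFrom D.start
    (([Letter.z, Letter.ybar, Letter.of ()] : List (Letter Unit)) ++ List.replicate n Letter.y))
  have key : ∀ k l : ℕ, test k l ∈ langT XX ↔ D.evalFrom (D.evalFrom D.start
      (([Letter.z, Letter.ybar, Letter.of ()] : List (Letter Unit)) ++
        List.replicate k Letter.y)) ([Letter.z] ++ List.replicate l Letter.ybar ++
          [Letter.of ()]) ∈ D.accept := by
    intro k l
    rw [← hD', ← DFA.evalFrom_of_append]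
    rfl
  have h2 := (test_mem n n).2 rfl
  rw [key n n] at h2
  have hst' : D.evalFrom D.start (([Letter.z, Letter.ybar, Letter.of ()] : List (Letter Unit)) ++
    List.replicate n Letter.y) = D.evalFrom D.start
      (([Letter.z, Letter.ybar, Letter.of ()] : List (Letter Unit)) ++
        List.replicate m Letter.y) := hst
  rw [hst', ← key m n, test_mem] at h2
  exact hnm h2.symm

theorem regular_XX : XX.IsRegular := by
  let D : DFA Unit (Fin 4) := ⟨fun q _ => if q = 0 then 1 else if q = 1 then 2 else 3, 0, {2}⟩
  refine ⟨Fin 4, inferInstance, D, ?_⟩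
  ext w
  change D.evalFrom 0 w ∈ ({2} : Set (Fin 4)) ↔ w = [(), ()]
  have h3 : ∀ w : List Unit, D.evalFrom 3 w = 3 := by
    intro w
    induction w with
    | nil => rfl
    | cons a w ih => exact ih
  rcases w with _ | ⟨a, _ | ⟨b, _ | ⟨c, w⟩⟩⟩
  · simp
  · have : D.evalFrom 0 [a] = 1 := rfl
    rw [this]
    simp
  · have : D.evalFrom 0 [a, b] = 2 := rfl
    rw [this]
    simp
  · have h4 : D.evalFrom 0 (a :: b :: c :: w) = 3 := h3 w
    rw [h4]
    simp

theorem not_closedT : ¬ ClosedT Reg := fun h =>
  not_regular (h ⟨Unit, inferInstance, XX⟩ regular_XX)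

/-- **The answer to the question is no**: the family of the regular languages is
`{agsm⁻¹}`-principal and `C`-principal, but it is not closed under `T`. -/
theorem result :
    (Principal OpAgsm Reg ∧ Principal OpC Reg ∧ ¬ ClosedT Reg) ∧
    ¬ ∀ F : Set Lang, Principal OpAgsm F → (Principal OpC F ↔ ClosedT F) :=
  ⟨⟨principal_agsm, principal_C, not_closedT⟩,
    fun h => not_closedT ((h Reg principal_agsm).1 principal_C)⟩

end Pool.Agent.Results.MP_c9c291_lc.RegularFamily
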